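import Mathlib

set_option autoImplicit false

open Equiv
open scoped commutatorElement

namespace Pool.Agent.H.MP_4236ce_al

abbrev X := ZMod 7
abbrev P := Perm (List X)

def mkF (a : Perm X) (σ : X → P) : List X → List X
  | [] => []
  | x :: w => a x :: σ x w

def mkP (a : Perm X) (σ : X → P) : P where
  toFun := mkF a σ
  invFun := mkF a⁻¹ fun y => (σ (a⁻¹ y))⁻¹
  left_inv := by rintro (_ | ⟨x, w⟩) <;> simp [mkF]
  right_inv := by rintro (_ | ⟨x, w⟩) <;> simp [mkF]

@[simp] theorem mkP_nil (a : Perm X) (σ : X → P) : mkP a σ [] = [] := rfl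
@[simp] theorem mkP_cons (a : Perm X) (σ : X → P) (x : X) (w : List X) :
    mkP a σ (x :: w) = a x :: σ x w := rfl

theorem mkP_mul (a b : Perm X) (σ τ : X → P) :
    mkP a σ * mkP b τ = mkP (a * b) fun x => σ (b x) * τ x := by
  ext1 (_ | ⟨x, w⟩) <;> simp

theorem mkP_inv (a : Perm X) (σ : X → P) :
    (mkP a σ)⁻¹ = mkP a⁻¹ fun y => (σ (a⁻¹ y))⁻¹ := Equiv.ext fun _ => rfl

def root : Perm X →* P where
  toFun a := mkP a 1
  map_one' := by ext1 (_ | ⟨x, w⟩) <;> simp
  map_mul' a b := by rw [mkP_mul]; rfl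

def io : (X → P) →* P where
  toFun σ := mkP 1 σ
  map_one' := by ext1 (_ | ⟨x, w⟩) <;> simp
  map_mul' a b := by rw [mkP_mul]; rfl

def at1 (x : X) : P →* P := io.comp (MonoidHom.mulSingle (fun _ => P) x)

def dirF (a : Perm X) : List X → List X
  | [] => []
  | x :: w => if x = 0 then x :: dirF a w else if x = 1 then x :: root a w else x :: w

theorem dirF_mul (a b : Perm X) (w : List X) : dirF (a * b) w = dirF a (dirF b w) := by
  induction w with
  | nil => rfl
  | cons x w ih =>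
    have : (1 : X) ≠ 0 := by decide
    simp only [dirF]; split_ifs <;> simp [dirF, *]

theorem dirF_one (w : List X) : dirF 1 w = w := by
  induction w with
  | nil => rfl
  | cons x w ih => simp [dirF, ih]

def dir : Perm X →* P where
  toFun a := ⟨dirF a, dirF a⁻¹, fun w => by rw [← dirF_mul, inv_mul_cancel, dirF_one],
    fun w => by rw [← dirF_mul, mul_inv_cancel, dirF_one]⟩
  map_one' := Equiv.ext dirF_one
  map_mul' a b := Equiv.ext (dirF_mul a b)

theorem dir_eq (a : Perm X) :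
    dir a = mkP 1 fun y => if y = 0 then dir a else if y = 1 then root a else 1 := by
  ext1 (_ | ⟨x, w⟩)
  · rfl
  · change dirF a (x :: w) = _
    simp only [dirF, mkP_cons]
    split_ifs <;> rfl

def A : Subgroup (Perm X) where
  carrier := {σ | ∃ u u' c : X, u * u' = 1 ∧ ∀ x, σ x = u * x + c}
  one_mem' := ⟨1, 1, 0, by simp, by simp⟩
  mul_mem' := by
    rintro a b ⟨u, u', c, h, ha⟩ ⟨v, v', d, h', hb⟩
    exact ⟨u * v, u' * v', u * d + c, by linear_combination (v * v') * h + h',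
      fun x => by simp only [Perm.mul_apply, ha, hb]; ring⟩
  inv_mem' := by
    rintro a ⟨u, u', c, h, ha⟩
    refine ⟨u', u, -(u' * c), by rw [mul_comm, h], fun x => ?_⟩
    rw [Perm.inv_eq_iff_eq, ha]
    linear_combination (c - x) * h

def aff (u u' c : X) (h : u * u' = 1) : Perm X where
  toFun x := u * x + c
  invFun y := u' * (y - c)
  left_inv x := by linear_combination x * h
  right_inv y := by linear_combination (y - c) * h

theorem aff_mem (u u' c : X) (h : u * u' = 1) : aff u u' c h ∈ A := ⟨u, u', c, h, fun _ => rfl⟩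

def G : Subgroup P := Subgroup.closure (root '' A ∪ dir '' A)

theorem root_mem {a : Perm X} (h : a ∈ A) : root a ∈ G :=
  Subgroup.subset_closure (Or.inl ⟨a, h, rfl⟩)

theorem dir_mem {a : Perm X} (h : a ∈ A) : dir a ∈ G :=
  Subgroup.subset_closure (Or.inr ⟨a, h, rfl⟩)

theorem dec {g : P} (h : g ∈ G) : ∃ a ∈ A, ∃ σ : X → P, (∀ x, σ x ∈ G) ∧ g = mkP a σ := by
  induction h using Subgroup.closure_induction with
  | mem g hg =>
    rcases hg with ⟨a, ha, rfl⟩ | ⟨a, ha, rfl⟩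
    · exact ⟨a, ha, 1, fun _ => G.one_mem, rfl⟩
    · refine ⟨1, A.one_mem, _, fun y => ?_, dir_eq a⟩
      split_ifs
      exacts [dir_mem ha, root_mem ha, G.one_mem]
  | one => exact ⟨1, A.one_mem, 1, fun _ => G.one_mem, root.map_one.symm⟩
  | mul g h _ _ hg hh =>
    obtain ⟨a, ha, σ, hσ, rfl⟩ := hg
    obtain ⟨b, hb, τ, hτ, rfl⟩ := hh
    exact ⟨_, A.mul_mem ha hb, _, fun x => G.mul_mem (hσ _) (hτ _), mkP_mul a b σ τ⟩
  | inv g _ hg =>
    obtain ⟨a, ha, σ, hσ, rfl⟩ := hg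
    exact ⟨_, A.inv_mem ha, _, fun x => G.inv_mem (hσ _), mkP_inv a σ⟩

def K : Subgroup P := ⁅G, G⁆

theorem K_le : K ≤ G := Subgroup.commutator_le_self G

theorem place {a : Perm X} (ha : a ∈ A) {p q : X} (h : p ≠ q) : ∃ τ : X → P,
    io τ * (dir a)⁻¹ ∈ K ∧ τ p = dir a ∧ τ q = root a ∧ ∀ y, y ≠ p → y ≠ q → τ y = 1 := by
  obtain ⟨u', hu⟩ : ∃ u', (q - p) * u' = 1 := by revert p q; decide
  let t := aff (q - p) u' p hu
  have t0 : t⁻¹ p = 0 := by rw [Perm.inv_eq_iff_eq]; simp [t, aff]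
  have t1 : t⁻¹ q = 1 := by rw [Perm.inv_eq_iff_eq]; simp [t, aff]
  refine ⟨fun y => if t⁻¹ y = 0 then dir a else if t⁻¹ y = 1 then root a else 1, ?_,
    by simp [t0], by beta_reduce; rw [t1, if_neg (by decide), if_pos rfl], fun y h1 h2 => ?_⟩
  · unfold K
    convert Subgroup.commutator_mem_commutator (root_mem (aff_mem _ _ p hu)) (dir_mem ha) using 1
    rw [commutatorElement_def]
    congr 1
    nth_rewrite 2 [dir_eq]
    change mkP 1 _ = mkP t 1 * mkP 1 _ * (mkP t 1)⁻¹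
    simp [mkP_mul, mkP_inv]
  · beta_reduce
    rw [if_neg fun e : t⁻¹ y = 0 => h1 (t⁻¹.injective (e.trans t0.symm)),
      if_neg fun e : t⁻¹ y = 1 => h2 (t⁻¹.injective (e.trans t1.symm))]

theorem lift3 {x p q r : X} (h1 : x ≠ p) (h2 : x ≠ q) (h3 : x ≠ r) (h4 : q ≠ r) {s : P}
    (hs : s ∈ G) : ∃ σ : X → P, io σ ∈ K ∧ σ x = s ∧
      ∀ y, y ≠ x → y ≠ p → y ≠ q → y ≠ r → σ y = 1 := by
  induction hs using Subgroup.closure_induction with
  | mem g hg =>
    obtain ⟨a, ha, τ, m, e, o⟩ : ∃ a ∈ A, ∃ τ : X → P, io τ * (dir a)⁻¹ ∈ K ∧ τ x = g ∧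
        ∀ y, y ≠ x → y ≠ p → τ y = 1 := by
      rcases hg with ⟨a, ha, rfl⟩ | ⟨a, ha, rfl⟩
      · obtain ⟨τ, m, -, e, o⟩ := place ha h1.symm
        exact ⟨a, ha, τ, m, e, fun y a b => o y b a⟩
      · obtain ⟨τ, m, e, -, o⟩ := place ha h1
        exact ⟨a, ha, τ, m, e, o⟩
    obtain ⟨τ', m', -, -, o'⟩ := place ha h4
    refine ⟨τ * τ'⁻¹, ?_, by simp [e, o' x h2 h3], fun y a b c d => by simp [o y a b, o' y c d]⟩
    simpa using K.mul_mem m (K.inv_mem m')
  | one => exact ⟨1, by simp, rfl, fun _ _ _ _ _ => rfl⟩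
  | mul g h _ _ hg hh =>
    obtain ⟨σ, m, rfl, o⟩ := hg
    obtain ⟨τ, m', rfl, o'⟩ := hh
    exact ⟨σ * τ, by simpa using K.mul_mem m m', rfl,
      fun y a b c d => by simp [o y a b c d, o' y a b c d]⟩
  | inv g _ hg =>
    obtain ⟨σ, m, rfl, o⟩ := hg
    exact ⟨σ⁻¹, by simpa using K.inv_mem m, rfl, fun y a b c d => by simp [o y a b c d]⟩

theorem branch (x : X) {k : P} (hk : k ∈ K) : at1 x k ∈ ⁅K, K⁆ := by
  refine (Subgroup.commutator_le (H₃ := Subgroup.comap (at1 x) ⁅K, K⁆)).2 (fun s hs t ht => ?_) hk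
  obtain ⟨σ, m, rfl, o⟩ := lift3 (x := x) (p := x + 1) (q := x + 2) (r := x + 3)
    (by clear * -; revert x; decide) (by clear * -; revert x; decide) (by clear * -; revert x; decide) (by clear * -; revert x; decide) hs
  obtain ⟨τ, m', rfl, o'⟩ := lift3 (x := x) (p := x + 4) (q := x + 5) (r := x + 6)
    (by clear * -; revert x; decide) (by clear * -; revert x; decide) (by clear * -; revert x; decide) (by clear * -; revert x; decide) ht
  rw [Subgroup.mem_comap]
  convert Subgroup.commutator_mem_commutator m m' using 1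
  rw [← map_commutatorElement]
  refine congrArg io (funext fun y => ?_)
  change Pi.mulSingle (M := fun _ => P) x _ y = ⁅σ y, τ y⁆
  by_cases h : y = x
  · simp [h]
  · rw [Pi.mulSingle_eq_of_ne h]
    have : (y ≠ x + 1 ∧ y ≠ x + 2 ∧ y ≠ x + 3) ∨ (y ≠ x + 4 ∧ y ≠ x + 5 ∧ y ≠ x + 6) := by
      clear * -; revert x y; decide
    rcases this with ⟨a, b, c⟩ | ⟨a, b, c⟩
    · simp [o y h a b c]
    · simp [o' y h a b c]

def atw : List X → P →* P
  | [] => MonoidHom.id P
  | x :: v => (at1 x).comp (atw v)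

theorem atw_mem (v : List X) {k : P} (hk : k ∈ K) : atw v k ∈ K := by
  induction v with
  | nil => exact hk
  | cons x v ih => exact Subgroup.commutator_le_self K (branch x ih)

theorem atw_snoc (v : List X) (x : X) (k : P) : atw (v ++ [x]) k = atw v (at1 x k) := by
  induction v with
  | nil => rfl
  | cons y v ih => exact congrArg (at1 y) ih

theorem atw_app (v : List X) (k : P) (w : List X) : atw v k (v ++ w) = v ++ k w := by
  induction v with
  | nil => rfl
  | cons y v ih =>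
    change mkP 1 (Pi.mulSingle y (atw v k)) (y :: (v ++ w)) = _
    simp [ih]

theorem atw_conj (v : List X) {h : P} (hh : h ∈ G) : (h v).length = v.length ∧
    ∃ s ∈ G, ∀ k, h * atw v k * h⁻¹ = atw (h v) (s * k * s⁻¹) := by
  induction v generalizing h with
  | nil =>
    obtain ⟨a, -, σ, -, rfl⟩ := dec hh
    exact ⟨rfl, _, hh, fun k => rfl⟩
  | cons x v ih =>
    obtain ⟨a, -, σ, hσ, rfl⟩ := dec hh
    obtain ⟨l, s, hs, e⟩ := ih (hσ x)
    refine ⟨by simp [l], s, hs, fun k => ?_⟩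
    change _ * mkP 1 (Pi.mulSingle x (atw v k)) * _ =
      mkP 1 (Pi.mulSingle (a x) (atw (σ x v) (s * k * s⁻¹)))
    rw [← e, mkP_inv, mkP_mul, mkP_mul, mul_one, mul_inv_cancel]
    congr 1
    ext1 y
    obtain ⟨y, rfl⟩ := a.surjective y
    by_cases h : y = x
    · simp [h]
    · simp [h, Pi.mulSingle_eq_of_ne, a.injective.ne h]

theorem atw_comm {v v' : List X} (l : v.length = v'.length) (h : v ≠ v') (k k' : P) :
    Commute (atw v k) (atw v' k') := by
  induction v generalizing v' with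
  | nil => exact absurd (List.length_eq_zero_iff.1 l.symm).symm h
  | cons x v ih =>
    rcases v' with _ | ⟨y, v'⟩
    · simp at l
    · by_cases e : x = y
      · subst e
        exact (ih (by simpa using l) fun e => h (by rw [e])).map (at1 x)
      · exact (Pi.mulSingle_commute (f := fun _ => P) e _ _).map io

theorem trans {v v' : List X} (l : v.length = v'.length) : ∃ h ∈ G, h v = v' := by
  induction v generalizing v' with
  | nil => exact ⟨1, G.one_mem, (List.length_eq_zero_iff.1 l.symm).symm⟩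
  | cons x v ih =>
    rcases v' with _ | ⟨y, v'⟩
    · simp at l
    · obtain ⟨s, hs, rfl⟩ := ih (v' := v') (by simpa using l)
      obtain ⟨σ, m, rfl, -⟩ := lift3 (x := x) (p := x + 1) (q := x + 2) (r := x + 3)
        (by clear * -; revert x; decide) (by clear * -; revert x; decide) (by clear * -; revert x; decide) (by clear * -; revert x; decide) hs
      refine ⟨root (aff 1 1 (y - x) (by simp)) * io σ,
        G.mul_mem (root_mem (aff_mem _ _ _ _)) (K_le m), ?_⟩
      simp [root, io, aff]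

theorem nrm_comm {L : Subgroup P} (h : ∀ g ∈ G, ∀ n ∈ L, g * n * g⁻¹ ∈ L) :
    ∀ g ∈ G, ∀ n ∈ ⁅L, L⁆, g * n * g⁻¹ ∈ ⁅L, L⁆ := fun g hg _ hn =>
  (Subgroup.commutator_le (H₃ := Subgroup.comap (MulAut.conj g).toMonoidHom ⁅L, L⁆)).2
    (fun a ha b hb => by
      rw [Subgroup.mem_comap, map_commutatorElement]
      exact Subgroup.commutator_mem_commutator (h g hg a ha) (h g hg b hb)) hn

theorem ji {N : Subgroup P} (hN : ∀ g ∈ G, ∀ n ∈ N, g * n * g⁻¹ ∈ N) {g : P} (hg : g ∈ G)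
    (hn : g ∈ N) (h1 : g ≠ 1) : ∃ n, ∀ u : List X, u.length = n → ∀ k ∈ K, atw u k ∈ N := by
  obtain ⟨v, hv⟩ : ∃ v, g v ≠ v := by
    by_contra! h; exact h1 (Equiv.ext h)
  obtain ⟨l, s, -, e⟩ := atw_conj v hg
  have a : ⁅K, K⁆ ≤ N.comap (atw v) := by
    refine Subgroup.commutator_le.2 fun k hk k' hk' => ?_
    have n1 := N.mul_mem hn (hN _ (K_le (atw_mem v (K.inv_mem hk))) _ (N.inv_mem hn))
    have n2 := N.mul_mem n1 (hN _ (K_le (atw_mem v hk')) _ (N.inv_mem n1))
    have c := atw_comm l hv (s * k⁻¹ * s⁻¹)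
    rw [← e] at c
    rw [Subgroup.mem_comap, map_commutatorElement]
    convert n2 using 1
    have c1 := (c k).eq
    have c2 := (c k').eq
    rw [map_inv] at c1 c2 ⊢
    generalize atw v k = r at *
    generalize atw v k' = r' at *
    generalize hc : g * r⁻¹ * g⁻¹ = c at *
    have : g * (r⁻¹ * g⁻¹ * r⁻¹⁻¹) = c * r := by rw [← hc]; group
    rw [this, commutatorElement_def]
    calc _ = c * c⁻¹ * (r * r' * r⁻¹) * r'⁻¹ := by group
      _ = c * (r * r' * r⁻¹) * c⁻¹ * r'⁻¹ := by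
        have : Commute c (r * r' * r⁻¹) :=
          (Commute.mul_right c1 c2).mul_right (Commute.inv_right c1)
        rw [this.eq]; group
      _ = _ := by group
  refine ⟨v.length + 1, fun u hu k hk => ?_⟩
  obtain rfl | ⟨w, x, rfl⟩ := List.eq_nil_or_concat' u
  · simp at hu
  obtain ⟨h, hh, rfl⟩ := trans (v := v) (v' := w) (by simpa using hu.symm)
  obtain ⟨-, t, ht, e'⟩ := atw_conj v hh
  have := hN h hh _ (a (nrm_comm (nrm_comm fun g hg n hn => G.mul_mem (G.mul_mem hg hn)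
    (G.inv_mem hg)) _ (G.inv_mem ht) _ (branch x hk)))
  rw [e'] at this
  rw [atw_snoc]
  convert this using 2
  group

def FI (N : Subgroup P) : Prop := ∃ T : Set P, T.Finite ∧ ∀ g ∈ G, ∃ t ∈ T, t⁻¹ * g ∈ N

theorem G_fg : Group.FG G := (Group.fg_iff_subgroup_fg _).2 ((Subgroup.fg_iff _).2
  ⟨_, rfl, ((Set.toFinite _).image _).union ((Set.toFinite _).image _)⟩)

theorem FI_K : FI K := by
  have := G_fg
  have : Group.FG (Abelianization G) := Group.fg_of_surjective (QuotientGroup.mk'_surjective _)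
  have : Finite (Abelianization G) := by
    refine CommGroup.finite_of_fg_isMulTorsion _ fun x => ?_
    obtain ⟨⟨g, hg⟩, rfl⟩ : ∃ g, Abelianization.of g = x := QuotientGroup.mk'_surjective _ x
    induction hg using Subgroup.closure_induction with
    | mem g hg =>
      refine MonoidHom.isOfFinOrder _ (G.subtype_injective.isOfFinOrder_iff.1 ?_)
      rcases hg with ⟨a, -, rfl⟩ | ⟨a, -, rfl⟩
      · exact root.isOfFinOrder (isOfFinOrder_of_finite a)
      · exact dir.isOfFinOrder (isOfFinOrder_of_finite a)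
    | one => exact IsOfFinOrder.one
    | mul g h hg' hh' hg hh => exact hg.mul hh
    | inv g hg' hg => exact hg.inv
  refine ⟨Set.range fun c : Abelianization G => (Quotient.out c : G), Set.finite_range _,
    fun g hg => ⟨_, ⟨Abelianization.of ⟨g, hg⟩, rfl⟩, ?_⟩⟩
  rw [K, ← Subgroup.map_subtype_commutator]
  exact ⟨_, QuotientGroup.eq.1 (Quotient.out_eq (Abelianization.of (⟨g, hg⟩ : G))), rfl⟩

theorem FI_lvl (n : ℕ) : ∀ N : Subgroup P, (∀ u : List X, u.length = n → ∀ k ∈ K, atw u k ∈ N) →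
    FI N := by
  induction n with
  | zero =>
    intro N h
    obtain ⟨T, hT, e⟩ := FI_K
    exact ⟨T, hT, fun g hg => (e g hg).imp fun t ht => ⟨ht.1, h [] rfl _ ht.2⟩⟩
  | succ n ih =>
    intro N h
    obtain ⟨T, hT, e⟩ := ih (⨅ x, N.comap (at1 x)) fun u hu k hk =>
      Subgroup.mem_iInf.2 fun x => h (x :: u) (by simp [hu]) k hk
    refine ⟨(fun p : Perm X × (X → P) => mkP p.1 p.2) '' (Set.univ ×ˢ {σ | ∀ x, σ x ∈ T}),
      (Set.finite_univ.prod (Set.Finite.pi' fun _ => hT)).image _, fun g hg => ?_⟩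
    obtain ⟨a, -, σ, hσ, rfl⟩ := dec hg
    choose t ht hm using fun x => e _ (hσ x)
    refine ⟨mkP a t, ⟨(a, t), ⟨trivial, ht⟩, rfl⟩, ?_⟩
    have := Subgroup.pi_mem_of_mulSingle_mem (H := N.comap io) (fun x => (t x)⁻¹ * σ x)
      fun x => Subgroup.mem_iInf.1 (hm x) x
    convert Subgroup.mem_comap.1 this using 1
    rw [mkP_inv, mkP_mul]
    simp [io]

theorem loc (v : List X) {g : P} (hg : g ∈ G) : ∃ a ∈ A, ∀ x, g (v ++ [x]) = g v ++ [a x] := by
  induction v generalizing g with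
  | nil =>
    obtain ⟨a, ha, σ, hσ, rfl⟩ := dec hg
    refine ⟨a, ha, fun x => ?_⟩
    obtain ⟨b, -, τ, -, e⟩ := dec (hσ x)
    simp [e]
  | cons y v ih =>
    obtain ⟨a, -, σ, hσ, rfl⟩ := dec hg
    obtain ⟨b, hb, e⟩ := ih (hσ y)
    exact ⟨b, hb, fun x => by simp [e]⟩

def St (v : List X) (B : Subgroup (Perm X)) : Subgroup P where
  carrier := {g | ∃ a ∈ B, ∀ x, g (v ++ [x]) = v ++ [a x]}
  one_mem' := ⟨1, B.one_mem, fun _ => rfl⟩
  mul_mem' := by
    rintro g h ⟨a, ha, e⟩ ⟨b, hb, e'⟩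
    exact ⟨a * b, B.mul_mem ha hb, fun x => by simp [e, e']⟩
  inv_mem' := by
    rintro g ⟨a, ha, e⟩
    exact ⟨a⁻¹, B.inv_mem ha, fun x => by rw [Perm.inv_eq_iff_eq, e]; simp⟩

theorem St_comm (v : List X) (B : Subgroup (Perm X)) : ⁅St v B, St v B⁆ ≤ St v ⁅B, B⁆ := by
  refine Subgroup.commutator_le.2 ?_
  rintro g ⟨a, ha, e⟩ h ⟨b, hb, e'⟩
  refine ⟨_, Subgroup.commutator_mem_commutator ha hb, fun x => ?_⟩
  have i1 : ∀ x, g⁻¹ (v ++ [x]) = v ++ [a⁻¹ x] := fun x => by rw [Perm.inv_eq_iff_eq, e]; simp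
  have i2 : ∀ x, h⁻¹ (v ++ [x]) = v ++ [b⁻¹ x] := fun x => by rw [Perm.inv_eq_iff_eq, e']; simp
  simp only [commutatorElement_def, Perm.mul_apply, i1, i2, e, e']

theorem A_solv : ⁅⁅A, A⁆, ⁅A, A⁆⁆ = ⊥ := by
  have : ⁅A, A⁆ ≤ (AddAction.toPermHom X X).toMultiplicative.range.map
      (MulEquiv.multiplicativeAdditive (Perm X)).toMonoidHom := by
    refine Subgroup.commutator_le.2 ?_
    rintro a ⟨u, u', c, h, e⟩ b ⟨v, v', d, h', e'⟩
    refine ⟨_, ⟨Multiplicative.ofAdd (c - v * c + u * d - d), rfl⟩, ?_⟩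
    rw [commutatorElement_def, eq_mul_inv_iff_mul_eq, eq_mul_inv_iff_mul_eq]
    ext x
    change (c - v * c + u * d - d) + b (a x) = a (b x)
    simp only [e, e']; ring
  refine le_bot_iff.1 (Subgroup.commutator_le.2 fun a ha b hb => ?_)
  obtain ⟨_, ⟨c, rfl⟩, rfl⟩ := this ha
  obtain ⟨_, ⟨d, rfl⟩, rfl⟩ := this hb
  rw [Subgroup.mem_bot, commutatorElement_eq_one_iff_mul_comm]
  ext x
  exact add_left_comm c.toAdd d.toAdd x

theorem not_perfect {N : Subgroup P} (h : N ≤ G) (hp : N ≤ ⁅N, N⁆) : N = ⊥ := by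
  refine eq_bot_iff.2 fun g hg => Equiv.ext fun w => ?_
  induction w using List.reverseRecOn generalizing g with
  | nil => obtain ⟨a, -, σ, -, rfl⟩ := dec (h hg); rfl
  | append_singleton v x ih =>
    have h1 : N ≤ St v A := fun g hg => by
      obtain ⟨a, ha, e⟩ := loc v (h hg)
      exact ⟨a, ha, fun x => by rw [e, ih g hg]; rfl⟩
    have h2 := hp.trans ((Subgroup.commutator_mono h1 h1).trans (St_comm v A))
    have h3 := hp.trans ((Subgroup.commutator_mono h2 h2).trans (St_comm v _))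
    obtain ⟨a, ha, e⟩ := h3 hg
    rw [A_solv, Subgroup.mem_bot] at ha
    rw [e, ha]; rfl

theorem k7 : ∃ k ∈ K, k ≠ 1 ∧ k ^ 7 = 1 ∧ k [0] ≠ [0] := by
  have e : ⁅aff 2 4 0 (by decide), aff 1 1 1 (by decide)⁆ = aff 1 1 1 (by decide) := by
    rw [commutatorElement_def, mul_inv_eq_iff_eq_mul, mul_inv_eq_iff_eq_mul]
    decide
  have h : root (aff 1 1 1 (by decide)) [0] ≠ [0] := by decide
  refine ⟨root (aff 1 1 1 (by decide)), ?_, fun e => h (by rw [e]; rfl), ?_, h⟩
  · rw [← e, map_commutatorElement]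
    exact Subgroup.commutator_mem_commutator (root_mem (aff_mem _ _ _ _))
      (root_mem (aff_mem _ _ _ _))
  · rw [← map_pow, show aff 1 1 1 (by decide) ^ 7 = 1 by decide, map_one]

theorem k2 : ∃ k ∈ K, k ≠ 1 ∧ k ^ 2 = 1 := by
  let a := aff 6 6 0 (by decide)
  have a2 : a ^ 2 = 1 := by decide
  obtain ⟨τ, m, e0, e1, o⟩ := place (a := a) (aff_mem _ _ _ _) (p := 0) (q := 1) (by decide)
  obtain ⟨τ', m', e2, e3, o'⟩ := place (a := a) (aff_mem _ _ _ _) (p := 2) (q := 3) (by decide)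
  refine ⟨io (τ * τ'⁻¹), by simpa using K.mul_mem m (K.inv_mem m'), fun h => ?_, ?_⟩
  · have := Equiv.congr_fun h [1, 1]
    simp only [io, MonoidHom.coe_mk, OneHom.coe_mk, mkP_cons, Pi.mul_apply, Pi.inv_apply, e1,
      o' 1 (by decide) (by decide), inv_one, mul_one] at this
    revert this; decide
  · rw [← map_pow, ← io.map_one]
    refine congrArg io (funext fun y => ?_)
    have : y = 0 ∨ y = 1 ∨ y = 2 ∨ y = 3 ∨ (y ≠ 0 ∧ y ≠ 1 ∧ y ≠ 2 ∧ y ≠ 3) := by tauto
    simp only [Pi.pow_apply, Pi.mul_apply, Pi.inv_apply, Pi.one_apply]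
    rcases this with rfl | rfl | rfl | rfl | ⟨b, c, d, e⟩
    · rw [e0, o' _ (by decide) (by decide), inv_one, mul_one, ← map_pow, a2, map_one]
    · rw [e1, o' _ (by decide) (by decide), inv_one, mul_one, ← map_pow, a2, map_one]
    · rw [e2, o _ (by decide) (by decide), one_mul, inv_pow, ← map_pow, a2, map_one, inv_one]
    · rw [e3, o _ (by decide) (by decide), one_mul, inv_pow, ← map_pow, a2, map_one, inv_one]
    · simp [o y b c, o' y d e]

theorem atw_inj (v : List X) : Function.Injective (atw v) := fun k k' h =>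
  Equiv.ext fun w => List.append_cancel_left (by rw [← atw_app, h, atw_app])

theorem G_inf : Infinite G := by
  by_contra! h
  have : Finite K := Finite.of_injective _ (Subgroup.inclusion_injective K_le)
  obtain ⟨k, hk, -, -, e⟩ := k7
  obtain ⟨k', e'⟩ := (Finite.injective_iff_surjective (f := fun k : K =>
    (⟨atw [0] k, atw_mem _ k.2⟩ : K))).1
    (fun a b h => Subtype.ext (atw_inj [0] (Subtype.mk.inj h))) ⟨k, hk⟩
  obtain ⟨a, -, σ, -, e''⟩ := dec (K_le k'.2)
  refine e ?_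
  rw [← Subtype.mk.inj e']
  exact (atw_app [0] k' []).trans (by rw [e'']; rfl)

end Pool.Agent.H.MP_4236ce_al
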